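import Mathlib

/-!
# A system of subfields of the reals

`Sys`: a set `B` of reals and subfields `L b`, `b ∈ B`, such that every real lies in all but
finitely many `L b`, only countably many reals lie in all `L b` with `b` outside a given finite
set, and `a + b ≠ c + d` for members of `B` unless this is trivial.
-/

namespace Pool.Agent.KS6_4.IC

open Set

structure Sys where
  B : Set ℝ
  L : ℝ → Subfield ℝ
  fin : ∀ r : ℝ, {b | b ∈ B ∧ r ∉ L b}.Finite
  cnt : ∀ S : Set ℝ, S.Finite → {r : ℝ | ∀ b ∈ B, r ∉ L b → b ∈ S}.Countable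
  ind : ∀ a ∈ B, ∀ b ∈ B, ∀ c ∈ B, ∀ d ∈ B, a ≠ b → a ≠ c → a ≠ d → a + b ≠ c + d

/-- The algebraic closure in `ℝ` of the field generated by `s`. -/
noncomputable def Lf (s : Set ℝ) : Subfield ℝ :=
  { (Subalgebra.algebraicClosure (Algebra.adjoin ℚ s) ℝ).toSubring with
    inv_mem' := by
      intro x hx
      have hx' : IsAlgebraic (Algebra.adjoin ℚ s) x := hx
      exact IsAlgebraic.inv hx' }

lemma mem_Lf (s : Set ℝ) (r : ℝ) : r ∈ Lf s ↔ r ∈ (AlgebraicIndependent.matroid ℚ ℝ).closure s := by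
  rw [AlgebraicIndependent.matroid_closure_eq]
  rfl

lemma closure_countable (S : Set ℝ) (hS : S.Countable) :
    ((AlgebraicIndependent.matroid ℚ ℝ).closure S).Countable := by
  rw [AlgebraicIndependent.matroid_closure_eq]
  have hc : Countable (Algebra.adjoin ℚ S) := by
    rw [← Cardinal.mk_le_aleph0_iff]
    refine (Algebra.cardinalMk_adjoin_le ℚ S).trans ?_
    refine sup_le (sup_le ?_ ?_) le_rfl
    · exact Cardinal.mk_le_aleph0_iff.2 inferInstance
    · exact Cardinal.le_aleph0_iff_set_countable.2 hS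
  have := Algebraic.countable (Algebra.adjoin ℚ S) ℝ
  refine this.mono ?_
  intro x hx
  exact hx

theorem exists_sys : Nonempty Sys := by
  obtain ⟨B, hB⟩ := (AlgebraicIndependent.matroid ℚ ℝ).exists_isBase
  refine ⟨⟨B, fun b => Lf (B \ {b}), ?_, ?_, ?_⟩⟩
  · intro r
    have hr : r ∈ (AlgebraicIndependent.matroid ℚ ℝ).closure B := by
      rw [hB.closure_eq]; trivial
    obtain ⟨I, hIB, hI, -, hrI⟩ := Matroid.exists_mem_finite_closure_of_mem_closure hr
    refine hI.subset ?_
    rintro b ⟨hb, hrb⟩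
    by_contra hbI
    apply hrb
    rw [mem_Lf]
    refine (AlgebraicIndependent.matroid ℚ ℝ).closure_subset_closure ?_ hrI
    intro x hx
    exact ⟨hIB hx, fun h => hbI (by rw [← (show x = b from h)]; exact hx)⟩
  · intro S hS
    refine (closure_countable S hS.countable).mono ?_
    intro r hr
    have key := hB.indep.closure_sInter_eq_biInter_closure_of_forall_subset
      (Js := insert B ((fun b => B \ {b}) '' (B \ S))) ⟨B, mem_insert _ _⟩ (by
        rintro J (rfl | ⟨b, -, rfl⟩)
        · exact subset_rfl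
        · exact sdiff_subset)
    have h1 : r ∈ ⋂ J ∈ insert B ((fun b => B \ {b}) '' (B \ S)),
        (AlgebraicIndependent.matroid ℚ ℝ).closure J := by
      simp only [mem_iInter]
      rintro J (rfl | ⟨b, hb, rfl⟩)
      · rw [hB.closure_eq]; trivial
      · by_contra hc
        exact hb.2 (hr b hb.1 (fun h => hc ((mem_Lf _ _).1 h)))
    rw [← key] at h1
    refine (AlgebraicIndependent.matroid ℚ ℝ).closure_subset_closure ?_ h1
    intro b hb
    by_contra hbS
    have hbB : b ∈ B := hb B (mem_insert _ _)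
    have := hb (B \ {b}) (mem_insert_of_mem _ ⟨b, ⟨hbB, hbS⟩, rfl⟩)
    exact this.2 rfl
  · intro a ha b hb c hc d hd hab hac had heq
    have hli : LinearIndependent ℚ (fun x : B => (x : ℝ)) := by
      have h := hB.indep
      rw [AlgebraicIndependent.matroid_indep_iff] at h
      exact AlgebraicIndependent.linearIndependent h
    rw [linearIndependent_iff] at hli
    have h0 := hli (Finsupp.single ⟨a, ha⟩ 1 + Finsupp.single ⟨b, hb⟩ 1 - Finsupp.single ⟨c, hc⟩ 1
      - Finsupp.single ⟨d, hd⟩ 1) (by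
        simp only [map_sub, map_add, Finsupp.linearCombination_single, one_smul]
        linarith)
    have h1 := DFunLike.congr_fun h0 ⟨a, ha⟩
    simp only [Finsupp.coe_sub, Finsupp.coe_add, Pi.sub_apply, Pi.add_apply, Finsupp.single_apply,
      Subtype.mk.injEq, Finsupp.coe_zero, Pi.zero_apply] at h1
    rw [if_pos trivial, if_neg (Ne.symm hab), if_neg (Ne.symm hac), if_neg (Ne.symm had)] at h1
    norm_num at h1

/-- Points with coordinates in a subfield, at a distance with square in the subfield, stay away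
from the points with some coordinate outside the subfield. -/
theorem away (K : Subfield ℝ) {n : ℕ} (x : EuclideanSpace ℝ (Fin n)) (i : Fin n) (hi : x i ∉ K) :
    ∃ ε : ℝ, 0 < ε ∧ ∀ y : EuclideanSpace ℝ (Fin n), (∀ j, y j ∈ K) → dist x y < ε →
      dist x y ^ 2 ∉ K := by
  by_contra hcon
  push Not at hcon
  -- a `K`-linear map with `θ 1 = 0`, `θ (x i) = 1`
  obtain ⟨θ, hθi, hθ⟩ := Submodule.exists_le_ker_of_notMem
    (K := K) (p := Submodule.span K {(1 : ℝ)}) (v := x i) (by
      rw [Submodule.mem_span_singleton]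
      rintro ⟨a, ha⟩
      apply hi
      rw [← ha]
      rw [Subfield.smul_def]
      simp)
  have h1 : θ 1 = 0 := hθ (Submodule.subset_span rfl)
  have hK : ∀ a ∈ K, θ a = 0 := by
    intro a ha
    have : a = (⟨a, ha⟩ : K) • (1 : ℝ) := by rw [Subfield.smul_def]; simp
    rw [this, map_smul, h1, smul_zero]
  have hmul : ∀ a ∈ K, ∀ r : ℝ, ((θ (a * r) : K) : ℝ) = a * θ r := by
    intro a ha r
    have : a * r = (⟨a, ha⟩ : K) • r := by rw [Subfield.smul_def]; simp
    rw [this, map_smul]
    simp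
  set z : Fin n → ℝ := fun j => θ (x j) with hz
  have hzK : ∀ j, z j ∈ K := fun j => (θ (x j)).2
  have hzi : z i ≠ 0 := by
    intro h
    apply hθi
    exact Subtype.ext h
  obtain ⟨y0, hy0, -, hd0⟩ := hcon 1 one_pos
  have hsq : ∀ y : EuclideanSpace ℝ (Fin n), dist x y ^ 2 = ∑ j, (x j - y j) ^ 2 := by
    intro y
    rw [EuclideanSpace.dist_eq, Real.sq_sqrt (Finset.sum_nonneg fun _ _ => sq_nonneg _)]
    refine Finset.sum_congr rfl fun j _ => ?_
    rw [Real.dist_eq, sq_abs]
  have hperp : ∀ y : EuclideanSpace ℝ (Fin n), (∀ j, y j ∈ K) → dist x y ^ 2 ∈ K →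
      ∑ j, (y0 j - y j) * z j = 0 := by
    intro y hy hd
    have hdiff : dist x y ^ 2 - dist x y0 ^ 2 =
        ∑ j, ((2 * (y0 j - y j)) * x j + (y j ^ 2 - y0 j ^ 2)) := by
      rw [hsq, hsq, ← Finset.sum_sub_distrib]
      refine Finset.sum_congr rfl fun j _ => by ring
    have hin : dist x y ^ 2 - dist x y0 ^ 2 ∈ K := K.sub_mem hd hd0
    have h2 := hK _ hin
    rw [hdiff, map_sum] at h2
    have h3 : ∀ j, ((θ ((2 * (y0 j - y j)) * x j + (y j ^ 2 - y0 j ^ 2)) : K) : ℝ)
        = 2 * ((y0 j - y j) * z j) := by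
      intro j
      rw [map_add, hK _ (K.sub_mem (K.pow_mem (hy j) 2) (K.pow_mem (hy0 j) 2)), add_zero,
        hmul _ (K.mul_mem (by
          have : (2 : ℝ) = ((2 : ℕ) : ℝ) := by norm_num
          rw [this]; exact natCast_mem K 2) (K.sub_mem (hy0 j) (hy j)))]
      ring
    have h4 : ((∑ j, θ ((2 * (y0 j - y j)) * x j + (y j ^ 2 - y0 j ^ 2)) : K) : ℝ) = 0 := by
      rw [h2]; rfl
    rw [AddSubmonoidClass.coe_finsetSum, Finset.sum_congr rfl fun j _ => h3 j,
      ← Finset.mul_sum] at h4
    linarith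
  -- the limit
  have hlim : ∑ j, (y0 j - x j) * z j = 0 := by
    by_contra hne
    set s := |∑ j, (y0 j - x j) * z j| with hs
    have hs0 : 0 < s := abs_pos.2 hne
    set Z := ∑ j, |z j| with hZ
    have hZ0 : 0 ≤ Z := Finset.sum_nonneg fun _ _ => abs_nonneg _
    obtain ⟨y, hy, hyε, hyd⟩ := hcon (s / (Z + 1)) (by positivity)
    have h5 := hperp y hy hyd
    have h6 : ∑ j, (y0 j - x j) * z j = ∑ j, (y j - x j) * z j := by
      have : ∑ j, (y0 j - x j) * z j - ∑ j, (y j - x j) * z j = ∑ j, (y0 j - y j) * z j := by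
        rw [← Finset.sum_sub_distrib]
        exact Finset.sum_congr rfl fun j _ => by ring
      linarith
    have h7 : s ≤ dist x y * Z := by
      rw [hs, h6]
      refine (Finset.abs_sum_le_sum_abs _ _).trans ?_
      rw [hZ, Finset.mul_sum]
      refine Finset.sum_le_sum fun j _ => ?_
      rw [abs_mul]
      refine mul_le_mul_of_nonneg_right ?_ (abs_nonneg _)
      have := PiLp.norm_apply_le (x - y) j
      rw [← dist_eq_norm, Real.norm_eq_abs] at this
      rw [abs_sub_comm]
      simpa using this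
    have h8 : dist x y * Z ≤ s / (Z + 1) * Z :=
      mul_le_mul_of_nonneg_right hyε.le hZ0
    have h9 : s / (Z + 1) * Z < s := by
      rw [div_mul_eq_mul_div, div_lt_iff₀ (by positivity)]
      nlinarith
    linarith
  have hfin : ∑ j, z j * z j = 0 := by
    have h10 : ((θ (∑ j, (y0 j - x j) * z j) : K) : ℝ) = 0 := by
      rw [hlim, map_zero]; rfl
    rw [map_sum, AddSubmonoidClass.coe_finsetSum] at h10
    have h11 : ∀ j, ((θ ((y0 j - x j) * z j) : K) : ℝ) = - (z j * z j) := by
      intro j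
      rw [mul_comm, hmul _ (hzK j), map_sub, hK _ (hy0 j)]
      simp [hz]
    rw [Finset.sum_congr rfl fun j _ => h11 j, Finset.sum_neg_distrib] at h10
    linarith
  have := (Finset.sum_eq_zero_iff_of_nonneg fun j _ => mul_self_nonneg (z j)).1 hfin i
    (Finset.mem_univ i)
  exact hzi (mul_self_eq_zero.1 this)

end Pool.Agent.KS6_4.IC
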