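import Mathlib
import Pool.Agent.KS6_4.IC.A

/-!
# The colouring of the distances
-/

namespace Pool.Agent.KS6_4.IC

open Set Filter Topology

section Pigeon

variable {α : Type*}

lemma pig {ι : Type*} [Countable ι] (A : Set α) (hA : ¬ A.Countable) (c : α → ι) :
    ∃ i, ¬ {x | x ∈ A ∧ c x = i}.Countable := by
  by_contra h
  push Not at h
  apply hA
  refine (countable_iUnion h).mono ?_
  intro x hx
  exact mem_iUnion.2 ⟨c x, hx, rfl⟩

lemma pigBall {Y : Type*} [PseudoMetricSpace Y] [TopologicalSpace.SeparableSpace Y] (A : Set α)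
    (hA : ¬ A.Countable) (w : α → Y) (r : ℝ) (hr : 0 < r) :
    ∃ y, ¬ {x | x ∈ A ∧ dist (w x) y < r}.Countable := by
  obtain ⟨T, hT, hTd⟩ := TopologicalSpace.exists_countable_dense Y
  by_contra h
  push Not at h
  apply hA
  refine (hT.biUnion (fun y _ => h y)).mono ?_
  intro x hx
  obtain ⟨y, hy, hyT⟩ := hTd.exists_mem_open Metric.isOpen_ball
    ⟨w x, Metric.mem_ball_self hr⟩
  simp only [mem_iUnion]
  refine ⟨y, hy, hx, ?_⟩
  rw [dist_comm]
  exact hyT

lemma dens {Y : Type*} [PseudoMetricSpace Y] [TopologicalSpace.SeparableSpace Y] (A : Set α)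
    (w : α → Y) : ∃ D ⊆ A, D.Countable ∧ ∀ y ∈ A, ∀ r : ℝ, 0 < r → ∃ d ∈ D,
      dist (w d) (w y) < r := by
  obtain ⟨T, hTA, hT, hTd⟩ := (TopologicalSpace.IsSeparable.of_separableSpace (w '' A)).exists_countable_dense_subset
  have hch : ∀ t : T, ∃ a ∈ A, w a = t := fun t => hTA t.2
  choose g hgA hg using hch
  have := hT.to_subtype
  refine ⟨range g, ?_, countable_range g, ?_⟩
  · rintro _ ⟨t, rfl⟩; exact hgA t
  · intro y hy r hr
    have h1 : w y ∈ closure T := hTd ⟨y, hy, rfl⟩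
    obtain ⟨t, ht, htr⟩ := Metric.mem_closure_iff.1 h1 r hr
    refine ⟨g ⟨t, ht⟩, ⟨_, rfl⟩, ?_⟩
    rw [hg, dist_comm]
    exact htr

/-- `u` is constant on `A`, or only countably many values (with multiplicity) are below a value. -/
def Thin (A : Set α) (u : α → Ordinal.{0}) : Prop :=
  (∃ c, ∀ x ∈ A, u x = c) ∨ ∀ y ∈ A, {x | x ∈ A ∧ u x ≤ u y}.Countable

lemma Thin.mono {A A' : Set α} {u : α → Ordinal.{0}} (h : Thin A u) (hA : A' ⊆ A) : Thin A' u := by
  rcases h with ⟨c, hc⟩ | h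
  · exact Or.inl ⟨c, fun x hx => hc x (hA hx)⟩
  · refine Or.inr fun y hy => (h y (hA hy)).mono ?_
    rintro x ⟨hx, hxy⟩
    exact ⟨hA hx, hxy⟩

lemma exists_thin (A : Set α) (hA : ¬ A.Countable) (u : α → Ordinal.{0}) :
    ∃ A' ⊆ A, ¬ A'.Countable ∧ Thin A' u := by
  by_cases h : ∃ c, ¬ {x | x ∈ A ∧ u x ≤ c}.Countable
  · obtain ⟨c, hc, hmin⟩ := WellFounded.has_min (wellFounded_lt (α := Ordinal.{0}))
      {c | ¬ {x | x ∈ A ∧ u x ≤ c}.Countable} h
    by_cases h2 : {x | x ∈ A ∧ u x = c}.Countable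
    · refine ⟨{x | x ∈ A ∧ u x < c}, fun x hx => hx.1, ?_, Or.inr ?_⟩
      · intro h3
        apply hc
        refine (h3.union h2).mono ?_
        rintro x ⟨hx, hxc⟩
        rcases hxc.lt_or_eq with h4 | h4
        · exact Or.inl ⟨hx, h4⟩
        · exact Or.inr ⟨hx, h4⟩
      · rintro y ⟨-, hy⟩
        have h5 : {x | x ∈ A ∧ u x ≤ u y}.Countable := by
          by_contra h6
          exact hmin _ h6 hy
        refine h5.mono ?_
        rintro x ⟨⟨hx, -⟩, hxy⟩
        exact ⟨hx, hxy⟩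
    · exact ⟨_, fun x hx => hx.1, h2, Or.inl ⟨c, fun x hx => hx.2⟩⟩
  · push Not at h
    exact ⟨A, subset_rfl, hA, Or.inr fun y _ => h (u y)⟩

lemma exists_thin_all {ι : Type*} (s : Finset ι) (A : Set α) (hA : ¬ A.Countable)
    (u : ι → α → Ordinal.{0}) : ∃ A' ⊆ A, ¬ A'.Countable ∧ ∀ j ∈ s, Thin A' (u j) := by
  classical
  induction s using Finset.induction_on with
  | empty => exact ⟨A, subset_rfl, hA, by simp⟩
  | insert j s _ ih =>
    obtain ⟨A1, h1, h2, h3⟩ := ih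
    obtain ⟨A2, h4, h5, h6⟩ := exists_thin A1 h2 (u j)
    refine ⟨A2, h4.trans h1, h5, ?_⟩
    intro i hi
    rcases Finset.mem_insert.1 hi with rfl | hi
    · exact h6
    · exact (h3 i hi).mono h4

lemma fin_eps {β : Type*} (T : Finset β) (P : β → ℝ → Prop) (h : ∀ t ∈ T, ∃ ε : ℝ, 0 < ε ∧ P t ε)
    (mono : ∀ t ε ε', 0 < ε' → ε' ≤ ε → P t ε → P t ε') : ∃ ε : ℝ, 0 < ε ∧ ∀ t ∈ T, P t ε := by
  classical
  induction T using Finset.induction_on with
  | empty => exact ⟨1, one_pos, by simp⟩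
  | insert j s _ ih =>
    obtain ⟨ε, hε, h1⟩ := ih fun t ht => h t (Finset.mem_insert_of_mem ht)
    obtain ⟨ε', hε', h2⟩ := h j (Finset.mem_insert_self _ _)
    refine ⟨min ε ε', lt_min hε hε', ?_⟩
    intro t ht
    rcases Finset.mem_insert.1 ht with rfl | ht
    · exact mono _ _ _ (lt_min hε hε') (min_le_right _ _) h2
    · exact mono _ _ _ (lt_min hε hε') (min_le_left _ _) (h1 t ht)

end Pigeon

/-- The support of a real. -/
noncomputable def supp (S : Sys) (r : ℝ) : Finset ℝ := (S.fin r).toFinset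

lemma mem_supp {S : Sys} {r b : ℝ} : b ∈ supp S r ↔ b ∈ S.B ∧ r ∉ S.L b := by
  simp [supp]

/-- The support of a point. -/
noncomputable def spt (S : Sys) {n : ℕ} (x : EuclideanSpace ℝ (Fin n)) : Finset ℝ :=
  by classical exact Finset.univ.biUnion fun i => supp S (x i)

lemma mem_spt {S : Sys} {n : ℕ} {x : EuclideanSpace ℝ (Fin n)} {b : ℝ} :
    b ∈ spt S x ↔ ∃ i, b ∈ supp S (x i) := by
  classical
  simp [spt]

/-- The two closest members of `T` are ordered by `ρ` as by `<`. -/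
def Agree (ρ : ℝ → Ordinal.{0}) (T : Finset ℝ) : Prop :=
  ∃ p ∈ T, ∃ q ∈ T, p < q ∧ (∀ p' ∈ T, ∀ q' ∈ T, p' < q' → q - p ≤ q' - p') ∧ ρ p < ρ q

open Classical in
/-- The colouring. -/
noncomputable def col (S : Sys) (ρ : ℝ → Ordinal.{0}) (r : ℝ) : Bool :=
  decide (Agree ρ (supp S (r ^ 2)))

/-- `δ` is good for `x`. -/
def Good (S : Sys) {n : ℕ} (x : EuclideanSpace ℝ (Fin n)) (δ : ℝ) : Prop :=
  (∀ p ∈ spt S x, ∀ q ∈ spt S x, p < q → δ < q - p) ∧
  ∀ b ∈ spt S x, ∀ y : EuclideanSpace ℝ (Fin n), b ∉ spt S y → dist x y < δ →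
    b ∈ supp S (dist x y ^ 2)

lemma exists_good (S : Sys) {n : ℕ} (x : EuclideanSpace ℝ (Fin n)) :
    ∃ k : ℕ, Good S x (1 / ((k : ℝ) + 1)) := by
  obtain ⟨ε1, h1, h1'⟩ := fin_eps (spt S x ×ˢ spt S x)
    (fun t ε => t.1 < t.2 → ε < t.2 - t.1) (by
      rintro ⟨p, q⟩ -
      by_cases h : p < q
      · exact ⟨(q - p) / 2, by linarith, fun _ => by dsimp only; linarith⟩
      · exact ⟨1, one_pos, fun h' => absurd h' h⟩)
    (fun t ε ε' _ h h' h'' => lt_of_le_of_lt h (h' h''))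
  obtain ⟨ε2, h2, h2'⟩ := fin_eps (spt S x)
    (fun b ε => ∀ y : EuclideanSpace ℝ (Fin n), b ∉ spt S y → dist x y < ε →
      b ∈ supp S (dist x y ^ 2)) (by
      intro b hb
      obtain ⟨i, hi⟩ := mem_spt.1 hb
      obtain ⟨hbB, hi⟩ := mem_supp.1 hi
      obtain ⟨ε, hε, h⟩ := away (S.L b) x i hi
      refine ⟨ε, hε, fun y hy hd => mem_supp.2 ⟨hbB, h y ?_ hd⟩⟩
      intro j
      by_contra hj
      exact hy (mem_spt.2 ⟨j, mem_supp.2 ⟨hbB, hj⟩⟩))
    (fun t ε ε' _ h h' y hy hd => h' y hy (hd.trans_le h))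
  obtain ⟨k, hk⟩ := exists_nat_one_div_lt (lt_min h1 h2)
  refine ⟨k, fun p hp q hq hpq => ?_, fun b hb y hy hd => ?_⟩
  · exact (hk.trans_le (min_le_left _ _)).trans (h1' (p, q) (Finset.mk_mem_product hp hq) hpq)
  · exact h2' b hb y hy (hd.trans (hk.trans_le (min_le_right _ _)))

lemma supp_dist_subset (S : Sys) {n : ℕ} (x y : EuclideanSpace ℝ (Fin n)) {b : ℝ}
    (hb : b ∈ supp S (dist x y ^ 2)) : b ∈ spt S x ∨ b ∈ spt S y := by
  by_contra h
  push Not at h
  obtain ⟨hbB, hb⟩ := mem_supp.1 hb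
  apply hb
  have hsq : dist x y ^ 2 = ∑ j, (x j - y j) ^ 2 := by
    rw [EuclideanSpace.dist_eq, Real.sq_sqrt (Finset.sum_nonneg fun _ _ => sq_nonneg _)]
    refine Finset.sum_congr rfl fun j _ => ?_
    rw [Real.dist_eq, sq_abs]
  rw [hsq]
  refine sum_mem fun j _ => (S.L b).pow_mem ((S.L b).sub_mem ?_ ?_) 2
  · by_contra hj
    exact h.1 (mem_spt.2 ⟨j, mem_supp.2 ⟨hbB, hj⟩⟩)
  · by_contra hj
    exact h.2 (mem_spt.2 ⟨j, mem_supp.2 ⟨hbB, hj⟩⟩)

/-- The increasing enumeration of the support. -/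
noncomputable def vec (S : Sys) {n : ℕ} (m : ℕ) (x : EuclideanSpace ℝ (Fin n)) (j : Fin m) : ℝ :=
  if h : (spt S x).card = m then (spt S x).orderEmbOfFin h j else 0

lemma vec_mem {S : Sys} {n m : ℕ} {x : EuclideanSpace ℝ (Fin n)} (h : (spt S x).card = m)
    (j : Fin m) : vec S m x j ∈ spt S x := by
  rw [vec, dif_pos h]
  exact Finset.orderEmbOfFin_mem _ h j

lemma vec_inj {S : Sys} {n m : ℕ} {x : EuclideanSpace ℝ (Fin n)} (h : (spt S x).card = m)
    {i j : Fin m} (hij : vec S m x i = vec S m x j) : i = j := by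
  rw [vec, vec, dif_pos h, dif_pos h] at hij
  exact (Finset.orderEmbOfFin (spt S x) h).injective hij

lemma exists_vec {S : Sys} {n m : ℕ} {x : EuclideanSpace ℝ (Fin n)} (h : (spt S x).card = m)
    {b : ℝ} (hb : b ∈ spt S x) : ∃ j, vec S m x j = b := by
  have := Finset.range_orderEmbOfFin (spt S x) h
  have hb' : b ∈ Set.range ((spt S x).orderEmbOfFin h) := by rw [this]; exact hb
  obtain ⟨j, hj⟩ := hb'
  exact ⟨j, by rw [vec, dif_pos h]; exact hj⟩

section Pair

variable {S : Sys} {n m : ℕ} {x y : EuclideanSpace ℝ (Fin n)} {δ : ℝ}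

lemma gap_abs (hx : (spt S x).card = m) (gx : Good S x δ) {i j : Fin m} (hij : i ≠ j) :
    δ < |vec S m x i - vec S m x j| := by
  rcases lt_trichotomy (vec S m x i) (vec S m x j) with h | h | h
  · have := gx.1 _ (vec_mem hx i) _ (vec_mem hx j) h
    rw [abs_sub_comm]
    exact this.trans_le (le_abs_self _)
  · exact absurd (vec_inj hx h) hij
  · have := gx.1 _ (vec_mem hx j) _ (vec_mem hx i) h
    exact this.trans_le (le_abs_self _)

lemma vec_ne_of_ne (hy : (spt S y).card = m) (gy : Good S y δ) (hδ : 0 < δ)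
    (hv : ∀ j, |vec S m x j - vec S m y j| < δ / 2) {i j : Fin m} (hij : i ≠ j) :
    δ / 2 < |vec S m x i - vec S m y j| := by
  have h1 := gap_abs hy gy hij
  have h2 := hv i
  have h3 : |vec S m y i - vec S m y j| ≤
      |vec S m x i - vec S m y i| + |vec S m x i - vec S m y j| := by
    rw [abs_sub_comm (vec S m x i) (vec S m y i)]
    have := abs_add_le (vec S m y i - vec S m x i) (vec S m x i - vec S m y j)
    simpa using this
  linarith

lemma pair_mem (hx : (spt S x).card = m) (hy : (spt S y).card = m) (gx : Good S x δ)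
    (gy : Good S y δ) (hδ : 0 < δ) (hd : dist x y < δ)
    (hv : ∀ j, |vec S m x j - vec S m y j| < δ / 2) {j : Fin m}
    (hj : vec S m x j ≠ vec S m y j) : vec S m x j ∈ supp S (dist x y ^ 2) := by
  refine gx.2 _ (vec_mem hx j) y ?_ hd
  intro h
  obtain ⟨l, hl⟩ := exists_vec hy h
  by_cases hjl : j = l
  · subst hjl; exact hj hl.symm
  · have h1 := vec_ne_of_ne hy gy hδ hv hjl
    rw [hl, sub_self, abs_zero] at h1
    linarith

lemma pair_closest (hx : (spt S x).card = m) (hy : (spt S y).card = m) (gx : Good S x δ)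
    (gy : Good S y δ) (hδ : 0 < δ)
    (hv : ∀ j, |vec S m x j - vec S m y j| < δ / 2) {p q : ℝ}
    (hp : p ∈ supp S (dist x y ^ 2)) (hq : q ∈ supp S (dist x y ^ 2)) (hpq : p < q)
    (hsmall : q - p < δ / 2) : ∃ j, vec S m x j ≠ vec S m y j ∧
      ((p = vec S m x j ∧ q = vec S m y j) ∨ (p = vec S m y j ∧ q = vec S m x j)) := by
  rcases supp_dist_subset S x y hp with hp | hp <;> rcases supp_dist_subset S x y hq with hq | hq
  · have := gx.1 p hp q hq hpq
    linarith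
  · obtain ⟨a, rfl⟩ := exists_vec hx hp
    obtain ⟨b, rfl⟩ := exists_vec hy hq
    by_cases hab : a = b
    · subst hab
      exact ⟨a, hpq.ne, Or.inl ⟨rfl, rfl⟩⟩
    · have h1 := vec_ne_of_ne hy gy hδ hv hab
      rw [abs_sub_comm, abs_of_pos (sub_pos.2 hpq)] at h1
      linarith
  · obtain ⟨a, rfl⟩ := exists_vec hy hp
    obtain ⟨b, rfl⟩ := exists_vec hx hq
    by_cases hab : b = a
    · subst hab
      exact ⟨b, hpq.ne', Or.inr ⟨rfl, rfl⟩⟩
    · have h1 := vec_ne_of_ne hy gy hδ hv hab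
      rw [abs_of_pos (sub_pos.2 hpq)] at h1
      linarith
  · have := gy.1 p hp q hq hpq
    linarith

/-- What the colour says about the two vectors. -/
lemma colour_pair (ρ : ℝ → Ordinal.{0}) (hρ : Function.Injective ρ)
    (hx : (spt S x).card = m) (hy : (spt S y).card = m) (gx : Good S x δ)
    (gy : Good S y δ) (hδ : 0 < δ) (hd : dist x y < δ)
    (hv : ∀ j, |vec S m x j - vec S m y j| < δ / 2)
    (hlt : ∀ j, vec S m x j ≠ vec S m y j → ρ (vec S m x j) < ρ (vec S m y j))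
    (hex : ∃ j, vec S m x j ≠ vec S m y j) (s : ℝ)
    (hs : s = if col S ρ (dist x y) = true then 1 else -1) :
    ∃ j, vec S m x j ≠ vec S m y j ∧ 0 < s * (vec S m y j - vec S m x j) ∧
      ∀ i, vec S m x i ≠ vec S m y i →
        |vec S m y j - vec S m x j| ≤ |vec S m y i - vec S m x i| := by
  classical
  set T := supp S (dist x y ^ 2) with hT
  have hmem : ∀ i, vec S m x i ≠ vec S m y i → vec S m x i ∈ T ∧ vec S m y i ∈ T := by
    intro i hi
    refine ⟨pair_mem hx hy gx gy hδ hd hv hi, ?_⟩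
    have := pair_mem (x := y) (y := x) hy hx gy gx hδ (by rwa [dist_comm])
      (fun j => by rw [abs_sub_comm]; exact hv j) (Ne.symm hi)
    rw [dist_comm] at this
    exact this
  -- a closest pair
  have hclose : ∀ p ∈ T, ∀ q ∈ T, p < q → (∀ p' ∈ T, ∀ q' ∈ T, p' < q' → q - p ≤ q' - p') →
      (∀ i, vec S m x i ≠ vec S m y i → q - p ≤ |vec S m y i - vec S m x i|) ∧
      ∃ j, vec S m x j ≠ vec S m y j ∧
      ((p = vec S m x j ∧ q = vec S m y j) ∨ (p = vec S m y j ∧ q = vec S m x j)) := by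
    intro p hp q hq hpq hmin
    have hle : ∀ i, vec S m x i ≠ vec S m y i → q - p ≤ |vec S m y i - vec S m x i| := by
      intro i hi
      obtain ⟨h1, h2⟩ := hmem i hi
      rcases lt_or_gt_of_ne hi with h | h
      · exact (hmin _ h1 _ h2 h).trans (le_abs_self _)
      · rw [abs_sub_comm]
        exact (hmin _ h2 _ h1 h).trans (le_abs_self _)
    refine ⟨hle, ?_⟩
    obtain ⟨i, hi⟩ := hex
    refine pair_closest hx hy gx gy hδ hv hp hq hpq ?_
    refine (hle i hi).trans_lt ?_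
    rw [abs_sub_comm]
    exact hv i
  by_cases hc : col S ρ (dist x y) = true
  · rw [if_pos hc] at hs
    subst hs
    have hA : Agree ρ T := by
      rw [col, decide_eq_true_iff] at hc
      exact hc
    obtain ⟨p, hp, q, hq, hpq, hmin, hρpq⟩ := hA
    obtain ⟨hle, j, hj, h⟩ := hclose p hp q hq hpq hmin
    rcases h with ⟨h1, h2⟩ | ⟨h1, h2⟩
    · refine ⟨j, hj, ?_, ?_⟩
      · rw [← h1, ← h2]; linarith
      · intro i hi
        rw [← h1, ← h2, abs_of_pos (sub_pos.2 hpq)]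
        exact hle i hi
    · exfalso
      have := hlt j hj
      rw [← h1, ← h2] at this
      exact absurd this (not_lt.2 hρpq.le)
  · rw [if_neg hc] at hs
    subst hs
    have hA : ¬ Agree ρ T := by
      intro h
      apply hc
      rw [col, decide_eq_true_iff]
      exact h
    -- take a closest pair
    obtain ⟨i, hi⟩ := hex
    obtain ⟨h1, h2⟩ := hmem i hi
    let Q := (T ×ˢ T).filter fun t => t.1 < t.2
    have hQ : Q.Nonempty := by
      rcases lt_or_gt_of_ne hi with h | h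
      · exact ⟨(vec S m x i, vec S m y i), Finset.mem_filter.2 ⟨Finset.mk_mem_product h1 h2, h⟩⟩
      · exact ⟨(vec S m y i, vec S m x i), Finset.mem_filter.2 ⟨Finset.mk_mem_product h2 h1, h⟩⟩
    obtain ⟨⟨p, q⟩, hpq, hmin⟩ := Finset.exists_min_image Q (fun t => t.2 - t.1) hQ
    obtain ⟨hpq1, hpq2⟩ := Finset.mem_filter.1 hpq
    obtain ⟨hp, hq⟩ := Finset.mem_product.1 hpq1
    dsimp only at hp hq hpq2
    have hmin' : ∀ p' ∈ T, ∀ q' ∈ T, p' < q' → q - p ≤ q' - p' := by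
      intro p' hp' q' hq' h
      exact hmin (p', q') (Finset.mem_filter.2 ⟨Finset.mk_mem_product hp' hq', h⟩)
    obtain ⟨hle, j, hj, h⟩ := hclose p hp q hq hpq2 hmin'
    have hnot : ¬ ρ p < ρ q := fun h' => hA ⟨p, hp, q, hq, hpq2, hmin', h'⟩
    rcases h with ⟨h1, h2⟩ | ⟨h1, h2⟩
    · exfalso
      have := hlt j hj
      rw [← h1, ← h2] at this
      exact hnot this
    · refine ⟨j, hj, ?_, ?_⟩
      · rw [← h1, ← h2]; linarith
      · intro i hi
        rw [← h1, ← h2, abs_sub_comm, abs_of_pos (sub_pos.2 hpq2)]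
        exact hle i hi

end Pair

end Pool.Agent.KS6_4.IC
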