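import Mathlib
import Pool.Agent.KS6_4.IC.B

/-!
# Homogeneous sets in finite-dimensional spaces are countable
-/

namespace Pool.Agent.KS6_4.IC

open Set Filter Topology

lemma exists_diff {α : Type*} {A C : Set α} (hA : ¬ A.Countable) (hC : C.Countable) :
    ∃ x ∈ A, x ∉ C := by
  by_contra h
  push Not at h
  exact hA (hC.mono h)

theorem euclid (S : Sys) (ρ : ℝ → Ordinal.{0}) (hρ : Function.Injective ρ) (n : ℕ)
    (X : Set (EuclideanSpace ℝ (Fin n)))
    (hX : ∃ c, ∀ x ∈ X, ∀ y ∈ X, x ≠ y → col S ρ (dist x y) = c) : X.Countable := by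
  classical
  obtain ⟨c, hc⟩ := hX
  by_contra hXc
  choose k hk using fun x : EuclideanSpace ℝ (Fin n) => exists_good S x
  obtain ⟨⟨m, K⟩, h1⟩ := pig X hXc (fun x => ((spt S x).card, k x))
  set A1 := {x | x ∈ X ∧ ((spt S x).card, k x) = (m, K)} with hA1
  set δ : ℝ := 1 / ((K : ℝ) + 1) with hδ
  have hδ0 : 0 < δ := by positivity
  obtain ⟨w0, h2⟩ := pigBall A1 h1 (fun x => ((x, vec S m x) : EuclideanSpace ℝ (Fin n) × (Fin m → ℝ)))
    (δ / 4) (by positivity)
  obtain ⟨A, hAsub, hA, hthin⟩ := exists_thin_all (Finset.univ : Finset (Fin m)) _ h2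
    (fun j x => ρ (vec S m x j))
  have hmemX : ∀ x ∈ A, x ∈ X := fun x hx => (hAsub hx).1.1
  have hcard : ∀ x ∈ A, (spt S x).card = m := fun x hx => (Prod.mk.injEq _ _ _ _ ▸ (hAsub hx).1.2).1
  have hgood : ∀ x ∈ A, Good S x δ := by
    intro x hx
    have h3 : k x = K := (Prod.mk.injEq _ _ _ _ ▸ (hAsub hx).1.2).2
    have h4 := hk x
    rw [h3] at h4
    exact h4
  have hdist : ∀ x ∈ A, ∀ y ∈ A, dist x y < δ ∧ ∀ j, |vec S m x j - vec S m y j| < δ / 2 := by
    intro x hx y hy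
    have h3 := (hAsub hx).2
    have h4 := (hAsub hy).2
    rw [Prod.dist_eq, max_lt_iff] at h3 h4
    constructor
    · have := dist_triangle_right x y w0.1
      linarith [h3.1, h4.1]
    · intro j
      have h5 := (dist_triangle_right (vec S m x) (vec S m y) w0.2)
      have h6 := dist_le_pi_dist (vec S m x) (vec S m y) j
      rw [Real.dist_eq] at h6
      linarith [h3.2, h4.2]
  -- the active coordinates
  set Act : Set (Fin m) := {j | ¬ ∃ c, ∀ x ∈ A, vec S m x j = c} with hActdef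
  have hAct : Act.Nonempty := by
    by_contra hne
    rw [Set.not_nonempty_iff_eq_empty] at hne
    have hall : ∀ j : Fin m, ∃ c, ∀ x ∈ A, vec S m x j = c := by
      intro j
      by_contra hj
      have : j ∈ Act := hj
      rw [hne] at this
      exact this
    choose cc hcc using hall
    apply hA
    have hcn := S.cnt (range cc) (finite_range cc)
    have h3 := Set.countable_pi (fun _ : Fin n => hcn)
    refine (h3.preimage_of_injOn (f := fun x : EuclideanSpace ℝ (Fin n) => (fun i => x i))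
      (fun x _ y _ hxy => by ext i; exact congrFun hxy i)).mono ?_
    intro x hx i b hb hbi
    have hbs : b ∈ spt S x := mem_spt.2 ⟨i, mem_supp.2 ⟨hb, hbi⟩⟩
    obtain ⟨j, hj⟩ := exists_vec (hcard x hx) hbs
    exact ⟨j, by rw [← hj, hcc j x hx]⟩
  have hconst : ∀ j, j ∉ Act → ∀ x ∈ A, ∀ y ∈ A, vec S m x j = vec S m y j := by
    intro j hj x hx y hy
    simp only [hActdef, mem_ofPred, not_not] at hj
    obtain ⟨c', hc'⟩ := hj
    rw [hc' x hx, hc' y hy]
  have hthin' : ∀ j ∈ Act, ∀ y ∈ A, {x | x ∈ A ∧ ρ (vec S m x j) ≤ ρ (vec S m y j)}.Countable := by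
    intro j hj
    rcases hthin j (Finset.mem_univ j) with ⟨c', hc'⟩ | h
    · exfalso
      apply hj
      by_cases hne : A.Nonempty
      · obtain ⟨x0, hx0⟩ := hne
        exact ⟨vec S m x0 j, fun x hx => hρ ((hc' x hx).trans (hc' x0 hx0).symm)⟩
      · exact ⟨0, fun x hx => absurd ⟨x, hx⟩ hne⟩
    · exact h
  obtain ⟨D, hDA, hD, hdens⟩ := dens A (vec S m)
  have hbad : (⋃ d ∈ D, ⋃ j ∈ Act, {x | x ∈ A ∧ ρ (vec S m x j) ≤ ρ (vec S m d j)}).Countable :=
    hD.biUnion fun d hd => (Set.to_countable Act).biUnion fun j hj => hthin' j hj d (hDA hd)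
  obtain ⟨η, hη, hηb⟩ := exists_diff hA hbad
  have hηD : ∀ d ∈ D, ∀ j ∈ Act, ρ (vec S m d j) < ρ (vec S m η j) := by
    intro d hd j hj
    by_contra h
    exact hηb (mem_biUnion hd (mem_biUnion hj ⟨hη, not_lt.1 h⟩))
  have hbad2 : (⋃ j ∈ Act, {x | x ∈ A ∧ ρ (vec S m x j) ≤ ρ (vec S m η j)}).Countable :=
    (Set.to_countable Act).biUnion fun j hj => hthin' j hj η hη
  obtain ⟨ζ, hζ, hζb⟩ := exists_diff hA (hbad.union hbad2)
  have hζD : ∀ d ∈ D, ∀ j ∈ Act, ρ (vec S m d j) < ρ (vec S m ζ j) := by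
    intro d hd j hj
    by_contra h
    exact hζb (Or.inl (mem_biUnion hd (mem_biUnion hj ⟨hζ, not_lt.1 h⟩)))
  have hζη : ∀ j ∈ Act, ρ (vec S m η j) < ρ (vec S m ζ j) := by
    intro j hj
    by_contra h
    exact hζb (Or.inr (mem_biUnion hj ⟨hζ, not_lt.1 h⟩))
  set s : ℝ := if c = true then 1 else -1 with hs
  have hlimit : ∀ a ∈ A, ∀ b ∈ A, (∀ d ∈ D, ∀ j ∈ Act, ρ (vec S m d j) < ρ (vec S m a j)) →
      ∃ j ∈ Act, 0 ≤ s * (vec S m a j - vec S m b j) ∧
        ∀ i ∈ Act, |vec S m a j - vec S m b j| ≤ |vec S m a i - vec S m b i| := by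
    intro a ha b hb haD
    by_contra hcon
    push Not at hcon
    have hev : ∀ j ∈ Act, ∀ᶠ u in 𝓝 (vec S m b), (s * (vec S m a j - u j) < 0 ∨
        ∃ i ∈ Act, |vec S m a i - u i| < |vec S m a j - u j|) := by
      intro j hj
      have hcj : ∀ l : Fin m, Continuous fun u : Fin m → ℝ => vec S m a l - u l := fun l =>
        continuous_const.sub (continuous_apply l)
      by_cases h3 : 0 ≤ s * (vec S m a j - vec S m b j)
      · obtain ⟨i, hi, h4⟩ := hcon j hj h3
        have : ∀ᶠ u in 𝓝 (vec S m b), |vec S m a i - u i| < |vec S m a j - u j| :=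
          (isOpen_lt (hcj i).abs (hcj j).abs).mem_nhds h4
        exact this.mono fun u hu => Or.inr ⟨i, hi, hu⟩
      · have : ∀ᶠ u in 𝓝 (vec S m b), s * (vec S m a j - u j) < 0 :=
          (isOpen_lt (continuous_const.mul (hcj j)) continuous_const).mem_nhds (not_le.1 h3)
        exact this.mono fun u hu => Or.inl hu
    have hev' : ∀ᶠ u in 𝓝 (vec S m b), ∀ j ∈ Act, (s * (vec S m a j - u j) < 0 ∨
        ∃ i ∈ Act, |vec S m a i - u i| < |vec S m a j - u j|) := by
      have := (Set.toFinite Act).eventually_all.2 hev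
      exact this
    obtain ⟨r, hr, hball⟩ := Metric.mem_nhds_iff.1 hev'
    obtain ⟨d, hd, hdr⟩ := hdens b hb r hr
    have hd' := hball hdr
    have hdA := hDA hd
    have hne : ∀ j ∈ Act, vec S m d j ≠ vec S m a j := fun j hj h => by
      have := haD d hd j hj
      rw [h] at this
      exact lt_irrefl _ this
    have hact : ∀ j, vec S m d j ≠ vec S m a j → j ∈ Act := by
      intro j hj
      by_contra h
      exact hj (hconst j h d hdA a ha)
    obtain ⟨j0, hj0⟩ := hAct
    have hda : d ≠ a := fun h => hne j0 hj0 (by rw [h])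
    obtain ⟨j, hj, h5, h6⟩ := colour_pair ρ hρ (hcard d hdA) (hcard a ha) (hgood d hdA)
      (hgood a ha) hδ0 (hdist d hdA a ha).1 (hdist d hdA a ha).2
      (fun j hj => haD d hd j (hact j hj)) ⟨j0, hne j0 hj0⟩ s
      (by rw [hc d (hmemX d hdA) a (hmemX a ha) hda])
    rcases hd' j (hact j hj) with h7 | ⟨i, hi, h7⟩
    · linarith
    · exact absurd (h6 i (hne i hi)) (not_le.2 h7)
  obtain ⟨j, hj, h3, h4⟩ := hlimit η hη ζ hζ hηD
  obtain ⟨l, hl, h5, h6⟩ := hlimit ζ hζ η hη hζD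
  have hne : ∀ i ∈ Act, vec S m η i ≠ vec S m ζ i := fun i hi h => by
    have := hζη i hi
    rw [h] at this
    exact lt_irrefl _ this
  have h7 : |vec S m η j - vec S m ζ j| = |vec S m η l - vec S m ζ l| := by
    refine le_antisymm (h4 l hl) ?_
    have := h6 j hj
    rwa [abs_sub_comm, abs_sub_comm (vec S m ζ j)] at this
  have hj0 : vec S m η j - vec S m ζ j ≠ 0 := sub_ne_zero.2 (hne j hj)
  have hl0 : vec S m η l - vec S m ζ l ≠ 0 := sub_ne_zero.2 (hne l hl)
  have h8 : vec S m η j - vec S m ζ j = -(vec S m η l - vec S m ζ l) := by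
    rcases abs_eq_abs.1 h7 with h | h
    · exfalso
      have h9 : s * (vec S m ζ l - vec S m η l) = - (s * (vec S m η j - vec S m ζ j)) := by
        rw [h]; ring
      have h10 : s * (vec S m η j - vec S m ζ j) = 0 := by linarith
      have hs0 : s ≠ 0 := by
        rw [hs]; split_ifs <;> norm_num
      exact (mul_ne_zero hs0 hj0) h10
    · exact h
  have hjl : j ≠ l := by
    rintro rfl
    apply hj0
    linarith
  refine S.ind (vec S m η j) ?_ (vec S m η l) ?_ (vec S m ζ j) ?_ (vec S m ζ l) ?_ ?_ ?_ ?_ ?_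
  · obtain ⟨i, hi⟩ := mem_spt.1 (vec_mem (hcard η hη) j)
    exact (mem_supp.1 hi).1
  · obtain ⟨i, hi⟩ := mem_spt.1 (vec_mem (hcard η hη) l)
    exact (mem_supp.1 hi).1
  · obtain ⟨i, hi⟩ := mem_spt.1 (vec_mem (hcard ζ hζ) j)
    exact (mem_supp.1 hi).1
  · obtain ⟨i, hi⟩ := mem_spt.1 (vec_mem (hcard ζ hζ) l)
    exact (mem_supp.1 hi).1
  · exact fun h => hjl (vec_inj (hcard η hη) h)
  · exact hne j hj
  · intro h
    have := vec_ne_of_ne (hcard ζ hζ) (hgood ζ hζ) hδ0 (hdist η hη ζ hζ).2 hjl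
    rw [h, sub_self, abs_zero] at this
    linarith
  · linarith

/-- One colouring of the distances is good for all real inner product spaces of countable
dimension. -/
theorem good_colouring : ∃ f : ℝ → Bool, ∀ (E : Type*) [NormedAddCommGroup E]
    [InnerProductSpace ℝ E], Module.rank ℝ E ≤ Cardinal.aleph0 → ∀ X : Set E,
    (∃ c, ∀ x ∈ X, ∀ y ∈ X, x ≠ y → f (dist x y) = c) → X.Countable := by
  classical
  obtain ⟨S⟩ := exists_sys
  let ρ : ℝ → Ordinal.{0} := Ordinal.typein (WellOrderingRel : ℝ → ℝ → Prop)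
  have hρ : Function.Injective ρ := Ordinal.typein_injective _
  refine ⟨col S ρ, ?_⟩
  intro E _ _ hE X hX
  obtain ⟨c, hc⟩ := hX
  -- exhaust by finite-dimensional subspaces
  let b := Module.Free.chooseBasis ℝ E
  have hcount : Countable (Module.Free.ChooseBasisIndex ℝ E) := by
    rw [← Cardinal.mk_le_aleph0_iff, ← Module.Free.rank_eq_card_chooseBasisIndex ℝ E]
    exact hE
  have hcov : X ⊆ ⋃ T : Finset (Module.Free.ChooseBasisIndex ℝ E),
      {x | x ∈ X ∧ x ∈ Submodule.span ℝ (b '' T)} := by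
    intro x hx
    rw [mem_iUnion]
    refine ⟨(b.repr x).support, hx, ?_⟩
    exact b.mem_span_repr_support x
  refine (countable_iUnion fun T => ?_).mono hcov
  set V := Submodule.span ℝ (b '' (T : Set (Module.Free.ChooseBasisIndex ℝ E))) with hV
  have hfd : FiniteDimensional ℝ V := FiniteDimensional.span_of_finite ℝ (T.finite_toSet.image b)
  let φ := (stdOrthonormalBasis ℝ V).repr
  have hcountable := euclid S ρ hρ _ (φ '' {v : V | (v : E) ∈ X}) ⟨c, by
    rintro _ ⟨v, hv, rfl⟩ _ ⟨w, hw, rfl⟩ hvw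
    rw [φ.dist_map]
    have : v ≠ w := fun h => hvw (by rw [h])
    exact hc v hv w hw (fun h => this (Subtype.ext h))⟩
  have h1 : {v : V | (v : E) ∈ X}.Countable :=
    (hcountable.preimage_of_injOn φ.injective.injOn).mono (subset_preimage_image _ _)
  refine (h1.image (fun v : V => (v : E))).mono ?_
  rintro x ⟨hx, hxV⟩
  exact ⟨⟨x, hxV⟩, hx, rfl⟩

end Pool.Agent.KS6_4.IC
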