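import Mathlib

/-!
# Infinite-dimensional Hilbert spaces: there are always large homogeneous sets
-/

namespace Pool.Agent.KS6_4.IC

open Set Filter Topology
open scoped Cardinal

/-- The initial segment of length `i`. -/
def pre (σ : ℕ → Bool) (i : ℕ) : List Bool := (List.range i).map σ

lemma pre_length (σ : ℕ → Bool) (i : ℕ) : (pre σ i).length = i := by simp [pre]

lemma pre_eq_iff (σ τ : ℕ → Bool) (i : ℕ) : pre σ i = pre τ i ↔ ∀ j < i, σ j = τ j := by
  simp [pre, List.map_inj_left]

section Hilbert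

variable {H : Type*} [NormedAddCommGroup H] [InnerProductSpace ℝ H] [CompleteSpace H]
  {e : List Bool → H}

/-- The branch vector. -/
noncomputable def br (e : List Bool → H) (σ : ℕ → Bool) : H := ∑' i, ((1 / 2 : ℝ) ^ i) • e (pre σ i)

lemma br_summable (he : Orthonormal ℝ e) (σ : ℕ → Bool) :
    Summable fun i => ((1 / 2 : ℝ) ^ i) • e (pre σ i) := by
  refine Summable.of_norm_bounded (g := fun i => (1 / 2 : ℝ) ^ i) summable_geometric_two ?_
  intro i
  rw [norm_smul, he.1, mul_one, Real.norm_eq_abs, abs_of_nonneg (by positivity)]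

lemma inner_e_br (he : Orthonormal ℝ e) (τ : ℕ → Bool) (l : List Bool) :
    inner ℝ (e l) (br e τ) = if pre τ l.length = l then (1 / 2 : ℝ) ^ l.length else 0 := by
  classical
  have h1 : inner ℝ (e l) (br e τ) = ∑' i, inner ℝ (e l) (((1 / 2 : ℝ) ^ i) • e (pre τ i)) := by
    have := (innerSL ℝ (e l)).map_tsum (br_summable he τ)
    simpa [br, inner_smul_right] using this
  rw [h1, tsum_eq_single l.length]
  · rw [inner_smul_right, orthonormal_iff_ite.1 he]
    by_cases h : pre τ l.length = l
    · rw [if_pos h, if_pos h.symm, mul_one]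
    · rw [if_neg h, if_neg (fun h' => h h'.symm), mul_zero]
  · intro i hi
    rw [inner_smul_right, orthonormal_iff_ite.1 he, if_neg, mul_zero]
    intro h
    apply hi
    rw [h, pre_length]

lemma inner_br (he : Orthonormal ℝ e) (σ τ : ℕ → Bool) :
    inner ℝ (br e σ) (br e τ) =
      ∑' i, (1 / 2 : ℝ) ^ i * (if pre τ i = pre σ i then (1 / 2 : ℝ) ^ i else 0) := by
  classical
  have h1 : inner ℝ (br e τ) (br e σ) =
      ∑' i, inner ℝ (br e τ) (((1 / 2 : ℝ) ^ i) • e (pre σ i)) := by
    have := (innerSL ℝ (br e τ)).map_tsum (br_summable he σ)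
    simpa [br, inner_smul_right] using this
  rw [real_inner_comm, h1]
  refine tsum_congr fun i => ?_
  rw [inner_smul_right, real_inner_comm, inner_e_br he, pre_length]

/-- The distance between two branches that split after `k` steps. -/
noncomputable def sep (k : ℕ) : ℝ :=
  Real.sqrt (2 * ∑' i, (1 / 2 : ℝ) ^ i * (1 / 2 : ℝ) ^ i -
    2 * ∑' i, (1 / 2 : ℝ) ^ i * (if i ≤ k then (1 / 2 : ℝ) ^ i else 0))

lemma dist_br (he : Orthonormal ℝ e) (σ τ : ℕ → Bool) (k : ℕ) (h1 : ∀ j < k, σ j = τ j)
    (h2 : σ k ≠ τ k) : dist (br e σ) (br e τ) = sep k := by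
  classical
  have hself : ∀ σ : ℕ → Bool, ‖br e σ‖ ^ 2 = ∑' i, (1 / 2 : ℝ) ^ i * (1 / 2 : ℝ) ^ i := by
    intro σ
    rw [← real_inner_self_eq_norm_sq, inner_br he]
    refine tsum_congr fun i => ?_
    rw [if_pos rfl]
  have hcross : inner ℝ (br e σ) (br e τ) =
      ∑' i, (1 / 2 : ℝ) ^ i * (if i ≤ k then (1 / 2 : ℝ) ^ i else 0) := by
    rw [inner_br he]
    refine tsum_congr fun i => ?_
    congr 1
    have : pre τ i = pre σ i ↔ i ≤ k := by
      rw [pre_eq_iff]
      constructor
      · intro h
        by_contra h'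
        exact h2 (h k (not_le.1 h')).symm
      · intro h j hj
        exact (h1 j (hj.trans_le h)).symm
    simp only [this]
  rw [dist_eq_norm, sep, ← Real.sqrt_sq (norm_nonneg (br e σ - br e τ))]
  congr 1
  rw [norm_sub_sq_real, hself, hself, hcross]
  ring

lemma br_injective (he : Orthonormal ℝ e) : Function.Injective (br e) := by
  intro σ τ h
  funext i
  have h1 := inner_e_br he σ (pre σ (i + 1))
  rw [h, inner_e_br he τ, pre_length, if_pos rfl] at h1
  have h2 : pre τ (i + 1) = pre σ (i + 1) := by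
    by_contra h3
    rw [if_neg h3] at h1
    have : (0 : ℝ) < (1 / 2) ^ (i + 1) := by positivity
    linarith
  exact ((pre_eq_iff _ _ _).1 h2 i (Nat.lt_succ_self i)).symm

end Hilbert

lemma exists_orthonormal (H : Type*) [NormedAddCommGroup H] [InnerProductSpace ℝ H]
    [CompleteSpace H] (hH : ¬ FiniteDimensional ℝ H) : ∃ e : List Bool → H, Orthonormal ℝ e := by
  classical
  obtain ⟨w, b, -⟩ := exists_hilbertBasis ℝ H
  have hw : Infinite w := by
    by_contra hfin
    rw [not_infinite_iff_finite] at hfin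
    have := Fintype.ofFinite w
    exact hH (Module.Finite.of_basis b.toOrthonormalBasis.toBasis)
  obtain ⟨g⟩ : Nonempty (List Bool ↪ w) := by
    obtain ⟨φ⟩ : Nonempty (ℕ ↪ w) := ⟨Infinite.natEmbedding w⟩
    exact ⟨(Encodable.encode' (List Bool)).trans φ⟩
  exact ⟨b ∘ g, b.orthonormal.comp g g.injective⟩

/-- In an infinite-dimensional Hilbert space every colouring of the distances with finitely many
colours has a homogeneous set of the size of the continuum. -/
theorem hilbert (H : Type*) [NormedAddCommGroup H] [InnerProductSpace ℝ H]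
    [CompleteSpace H] (hH : ¬ FiniteDimensional ℝ H) (κ : Type*) [Finite κ] (f : ℝ → κ) :
    ∃ X : Set H, #X = 𝔠 ∧ ∃ c, ∀ x ∈ X, ∀ y ∈ X, x ≠ y → f (dist x y) = c := by
  classical
  obtain ⟨e, he⟩ := exists_orthonormal H hH
  obtain ⟨c, hc⟩ := Finite.exists_infinite_fiber (fun k : ℕ => f (sep k))
  have hK : ((fun k : ℕ => f (sep k)) ⁻¹' {c}).Infinite := Set.infinite_coe_iff.1 hc
  set K := (fun k : ℕ => f (sep k)) ⁻¹' {c} with hKdef
  have := hK.to_subtype
  let φ := Nat.orderEmbeddingOfSet K
  let ext : (ℕ → Bool) → ℕ → Bool := fun τ i => decide (∃ j, φ j = i ∧ τ j = true)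
  have hext : ∀ τ j, ext τ (φ j) = τ j := by
    intro τ j
    by_cases h : τ j = true
    · rw [h]
      exact decide_eq_true ⟨j, rfl, h⟩
    · rw [Bool.not_eq_true] at h
      rw [h]
      refine decide_eq_false ?_
      rintro ⟨j', h1, h2⟩
      have := φ.injective h1
      subst this
      rw [h] at h2
      exact absurd h2 (by simp)
  have hext0 : ∀ τ i, i ∉ K → ext τ i = false := by
    intro τ i hi
    refine decide_eq_false ?_
    rintro ⟨j', h1, -⟩
    exact hi (h1 ▸ Nat.orderEmbeddingOfSet_range K ▸ ⟨j', rfl⟩)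
  have hinj : Function.Injective fun τ => br e (ext τ) := by
    intro τ τ' h
    have h1 := br_injective he h
    funext j
    rw [← hext τ j, ← hext τ' j, h1]
  refine ⟨range fun τ => br e (ext τ), ?_, c, ?_⟩
  · have h1 := Cardinal.mk_range_eq_of_injective (f := fun τ => br e (ext τ)) hinj
    have h2 : #(ℕ → Bool) = 𝔠 := by simp
    rw [h2, Cardinal.lift_continuum] at h1
    exact Cardinal.lift_injective (h1.trans Cardinal.lift_continuum.symm)
  · rintro _ ⟨τ, rfl⟩ _ ⟨τ', rfl⟩ hne
    have hne' : ext τ ≠ ext τ' := fun h => hne (by simp only [h])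
    have hex : ∃ k, ext τ k ≠ ext τ' k := by
      by_contra h
      push Not at h
      exact hne' (funext h)
    have h1 := Nat.find_spec hex
    have h2 : ∀ j < Nat.find hex, ext τ j = ext τ' j := fun j hj => by
      have := Nat.find_min hex hj
      push Not at this
      exact this
    have hk : Nat.find hex ∈ K := by
      by_contra h
      apply h1
      rw [hext0 τ _ h, hext0 τ' _ h]
    simp only
    rw [dist_br he _ _ _ h2 h1]
    exact hk

end Pool.Agent.KS6_4.IC
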